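import Pool.Agent.Helper26.Er.Defs
import Pool.Agent.Helper26.Ip.Core
import Pool.Agent.Helper41.Ip.CH
import Pool.Agent.Helper88.Ip.Pw2a
import Pool.Agent.Helper72.Ip.PW1

/-!
# Linear regression: packages E1 and E5
-/

set_option autoImplicit false
set_option linter.unusedSectionVars false
open MeasureTheory Filter Topology ProbabilityTheory
open scoped ContDiff ENNReal InnerProductSpace

namespace Pool.Agent.Helper33.Er

open Pool.Agent.N661.BR (MW J0 IsStationary shift meas_eval meas_shift IsGaussianLaw lin meas_lin)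
open Pool.Agent.Helper37.BC
open Pool.Agent.Helper26.Ip
open Pool.Agent.Helper26.Lr
open Pool.Agent.Helper26.Er
open Pool.Agent.Helper41.Ip (meas_kexp int_kexp norm_exp_diff coe_line int_mul)
open Complex (I)

noncomputable section

section general

variable {Ω : Type*} [MeasurableSpace Ω] {μ : Measure Ω} [IsProbabilityMeasure μ]

theorem cos_two (c : Lp ℝ 2 μ) : MemLp (fun f => Real.cos (c f)) 2 μ := by
  refine MemLp.of_bound ?_ 1 (Eventually.of_forall fun f => ?_)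
  · exact (Real.measurable_cos.comp (Lp.stronglyMeasurable c).measurable).aestronglyMeasurable
  · exact Real.abs_cos_le_one _

theorem sin_two (c : Lp ℝ 2 μ) : MemLp (fun f => Real.sin (c f)) 2 μ := by
  refine MemLp.of_bound ?_ 1 (Eventually.of_forall fun f => ?_)
  · exact (Real.measurable_sin.comp (Lp.stronglyMeasurable c).measurable).aestronglyMeasurable
  · exact Real.abs_sin_le_one _

/-- `cos c` -/
def cs (c : Lp ℝ 2 μ) : Lp ℝ 2 μ := (cos_two c).toLp _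
/-- `sin c` -/
def sn (c : Lp ℝ 2 μ) : Lp ℝ 2 μ := (sin_two c).toLp _

theorem D_eq (c k : Lp ℝ 2 μ) : D c k = (⟪k, cs c⟫_ℝ : ℝ) + I * (⟪k, sn c⟫_ℝ : ℝ) := by
  rw [← inner_int, ← inner_int]
  have h1 : ∫ f, k f * (cs c) f ∂μ = ∫ f, k f * Real.cos (c f) ∂μ := by
    refine integral_congr_ae ?_
    filter_upwards [MemLp.coeFn_toLp (cos_two c)] with f hf
    unfold cs
    rw [hf]
  have h2 : ∫ f, k f * (sn c) f ∂μ = ∫ f, k f * Real.sin (c f) ∂μ := by
    refine integral_congr_ae ?_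
    filter_upwards [MemLp.coeFn_toLp (sin_two c)] with f hf
    unfold sn
    rw [hf]
  have i1 : Integrable (fun f => k f * Real.cos (c f)) μ :=
    MemLp.integrable_mul (Lp.memLp k) (cos_two c)
  have i2 : Integrable (fun f => k f * Real.sin (c f)) μ :=
    MemLp.integrable_mul (Lp.memLp k) (sin_two c)
  have j1 : Integrable (fun f => ((k f * Real.cos (c f) : ℝ) : ℂ)) μ := i1.ofReal
  have j2 : Integrable (fun f => I * ((k f * Real.sin (c f) : ℝ) : ℂ)) μ := i2.ofReal.const_mul I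
  rw [h1, h2, ← integral_complex_ofReal, ← integral_complex_ofReal, ← integral_const_mul,
    ← integral_add j1 j2]
  unfold D
  refine integral_congr_ae (Eventually.of_forall fun f => ?_)
  show (k f : ℂ) * Complex.exp (I * ((c f : ℝ) : ℂ)) =
    ((k f * Real.cos (c f) : ℝ) : ℂ) + I * ((k f * Real.sin (c f) : ℝ) : ℂ)
  rw [mul_comm I, Complex.exp_mul_I]
  push_cast
  ring

theorem D_zero (c : Lp ℝ 2 μ) : D c 0 = 0 := by
  rw [D_eq, inner_zero_left, inner_zero_left]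
  simp

theorem D_diff (c v : Lp ℝ 2 μ) (a : ℝ) :
    ‖D c v - D (c + (-a) • v) v‖ ≤ |a| * ‖v‖ ^ 2 := by
  unfold D
  rw [← integral_sub (int_kexp v c) (int_kexp v _)]
  refine (norm_integral_le_integral_norm _).trans ?_
  have h1 : ∫ f, |a| * (v f * v f) ∂μ = |a| * ‖v‖ ^ 2 := by
    rw [integral_const_mul, inner_int, real_inner_self_eq_norm_sq]
  rw [← h1]
  refine integral_mono_ae ?_ ((int_mul v v).const_mul _) ?_
  · exact ((int_kexp v c).sub (int_kexp v _)).norm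
  · filter_upwards [coe_line c v (-a)] with f hf
    rw [← mul_sub, norm_mul, Complex.norm_real, hf, Real.norm_eq_abs]
    refine (mul_le_mul_of_nonneg_left (norm_exp_diff _ _) (abs_nonneg _)).trans ?_
    have h2 : c f - (c f + -a * v f) = a * v f := by ring
    rw [h2, abs_mul, ← abs_mul_abs_self (v f)]
    exact le_of_eq (by ring)

end general

variable {μ : Measure MW} [IsProbabilityMeasure μ]

/-- E1 -/
theorem D_le (hs : IsStationary μ) (h2 : Integrable (fun f : MW => f 0 ^ 2) μ)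
    (h1 : Cond1 hs h2) {c : Lp ℝ 2 μ} (hc : c ∈ values μ) (x : ℂ) :
    ‖D c (V hs h2 x)‖ ≤ |⟪V hs h2 x, c⟫_ℝ| := by
  set v := V hs h2 x with hv
  by_cases h0 : v = 0
  · rw [h0, D_zero, norm_zero]
    exact abs_nonneg _
  have hn : ‖v‖ ^ 2 ≠ 0 := pow_ne_zero 2 (norm_ne_zero_iff.mpr h0)
  set a : ℝ := ⟪v, c⟫_ℝ / ‖v‖ ^ 2 with ha
  have hmem : c + (-a) • v ∈ values μ :=
    Submodule.add_mem _ hc (Submodule.smul_mem _ _ (V_mem hs h2 x))
  have horth : ⟪c + (-a) • v, v⟫_ℝ = 0 := by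
    rw [inner_add_left, real_inner_smul_left, real_inner_self_eq_norm_sq, real_inner_comm v c, ha]
    field_simp
    ring
  have h3 : D (c + (-a) • v) v = 0 := h1 _ hmem x horth
  have h4 := D_diff c v a
  rw [h3, sub_zero] at h4
  refine h4.trans (le_of_eq ?_)
  rw [ha, abs_div, abs_of_nonneg (sq_nonneg ‖v‖)]
  field_simp

/-- package E4b -/
def Prop4b : Prop := ∀ (u w : ℂ → ℝ), Continuous u → MeanValue u → Continuous w → MeanValue w →
  ∀ M : ℝ, (∀ z, |u z| ≤ M) → (∀ z, |w z| ≤ |u z|) → ∃ l : ℝ, ∀ z, w z = l * u z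

theorem mean_Vg (hs : IsStationary μ) (h2 : Integrable (fun f : MW => f 0 ^ 2) μ)
    (g : Lp ℝ 2 μ) : MeanValue (fun x => ⟪V hs h2 x, g⟫_ℝ) := by
  intro z r hr
  have h := Pool.Agent.Helper88.Ip.V_mean hs h2 g z hr
  rw [← h]
  refine intervalIntegral.integral_congr fun θ _ => ?_
  show ⟪V hs h2 (z + r * ee θ), g⟫_ℝ = _
  rw [ee_exp]

theorem V_norm (hs : IsStationary μ) (h2 : Integrable (fun f : MW => f 0 ^ 2) μ) (x : ℂ) :
    ‖V hs h2 x‖ = ‖V hs h2 0‖ := by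
  rw [← zero_add x, ← S_V hs h2 x 0, LinearIsometry.norm_map]

/-- E5 (from E1, E4b) -/
theorem D_prop (h4b : Prop4b) (hs : IsStationary μ)
    (h2 : Integrable (fun f : MW => f 0 ^ 2) μ)
    (h1 : Cond1 hs h2) {c : Lp ℝ 2 μ} (hc : c ∈ values μ) :
    ∃ l : ℂ, ∀ k ∈ values μ, D c k = l * (⟪c, k⟫_ℝ : ℝ) := by
  have hb : ∀ z, |⟪V hs h2 z, c⟫_ℝ| ≤ ‖V hs h2 0‖ * ‖c‖ := fun z => by
    rw [← V_norm hs h2 z]
    exact abs_real_inner_le_norm _ _
  have hre : ∀ z, ⟪V hs h2 z, cs c⟫_ℝ = (D c (V hs h2 z)).re := fun z => by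
    rw [D_eq]
    simp
  have him : ∀ z, ⟪V hs h2 z, sn c⟫_ℝ = (D c (V hs h2 z)).im := fun z => by
    rw [D_eq]
    simp
  obtain ⟨l1, hl1⟩ := h4b (fun z => ⟪V hs h2 z, c⟫_ℝ) (fun z => ⟪V hs h2 z, cs c⟫_ℝ)
    (Pool.Agent.Helper72.Ip.cont_Vg hs h2 c) (mean_Vg hs h2 c)
    (Pool.Agent.Helper72.Ip.cont_Vg hs h2 _) (mean_Vg hs h2 _) _ hb (fun z => by
      rw [hre z]
      exact (Complex.abs_re_le_norm _).trans (D_le hs h2 h1 hc z))
  obtain ⟨l2, hl2⟩ := h4b (fun z => ⟪V hs h2 z, c⟫_ℝ) (fun z => ⟪V hs h2 z, sn c⟫_ℝ)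
    (Pool.Agent.Helper72.Ip.cont_Vg hs h2 c) (mean_Vg hs h2 c)
    (Pool.Agent.Helper72.Ip.cont_Vg hs h2 _) (mean_Vg hs h2 _) _ hb (fun z => by
      rw [him z]
      exact (Complex.abs_im_le_norm _).trans (D_le hs h2 h1 hc z))
  refine ⟨(l1 : ℂ) + I * (l2 : ℂ), fun k hk => ?_⟩
  have key : ⟪k, cs c⟫_ℝ = l1 * ⟪c, k⟫_ℝ ∧ ⟪k, sn c⟫_ℝ = l2 * ⟪c, k⟫_ℝ := by
    refine values_induction hs h2
      (p := fun k => ⟪k, cs c⟫_ℝ = l1 * ⟪c, k⟫_ℝ ∧ ⟪k, sn c⟫_ℝ = l2 * ⟪c, k⟫_ℝ) ?_ ?_ ?_ ?_ ?_ hk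
    · refine IsClosed.inter (isClosed_eq ?_ ?_) (isClosed_eq ?_ ?_) <;> fun_prop
    · intro y
      refine ⟨?_, ?_⟩
      · rw [real_inner_comm (V hs h2 y) c]
        exact hl1 y
      · rw [real_inner_comm (V hs h2 y) c]
        exact hl2 y
    · simp
    · rintro g k ⟨a1, a2⟩ ⟨b1, b2⟩
      refine ⟨?_, ?_⟩
      · rw [inner_add_left, inner_add_right, a1, b1]; ring
      · rw [inner_add_left, inner_add_right, a2, b2]; ring
    · rintro t g ⟨a1, a2⟩
      refine ⟨?_, ?_⟩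
      · rw [real_inner_smul_left, real_inner_smul_right, a1]; ring
      · rw [real_inner_smul_left, real_inner_smul_right, a2]; ring
  rw [D_eq, key.1, key.2]
  push_cast
  ring

end

end Pool.Agent.Helper33.Er
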