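import Pool.Agent.Helper26.Er.Gw
import Pool.Agent.Helper38.Er.E9c
import Pool.Agent.Helper43.Er.X12
import Pool.Agent.Helper12.Lr.LR4
import Pool.Agent.Helper33.Er.E1

/-!
# Linear regression: package X5
-/

set_option autoImplicit false
set_option linter.unusedSectionVars false
open MeasureTheory Filter Topology ProbabilityTheory
open scoped ContDiff ENNReal InnerProductSpace

namespace Pool.Agent.Helper33.Er

open Pool.Agent.N661.BR (MW IsStationary)
open Pool.Agent.Helper26.Ip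
open Pool.Agent.Helper26.Lr
open Pool.Agent.Helper26.Er
open Pool.Agent.Helper41.Ip (meas_exp norm_exp_one int_mul)
open Pool.Agent.Helper38.Er (vec meas_vec charFun_vec norm_comb)
open Complex (I)

noncomputable section

variable {μ : Measure MW} [IsProbabilityMeasure μ]

theorem vec_law (hi : Iso μ) {n : ℕ} {a b : Fin n → Lp ℝ 2 μ} (ha : ∀ i, a i ∈ values μ)
    (hb : ∀ i, b i ∈ values μ) (hab : ∀ i j, ⟪a i, a j⟫_ℝ = ⟪b i, b j⟫_ℝ) :
    μ.map (vec a) = μ.map (vec b) := by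
  have _ : IsProbabilityMeasure (μ.map (vec a)) :=
    Measure.isProbabilityMeasure_map (meas_vec a).aemeasurable
  have _ : IsProbabilityMeasure (μ.map (vec b)) :=
    Measure.isProbabilityMeasure_map (meas_vec b).aemeasurable
  refine Measure.ext_of_charFun (funext fun t => ?_)
  rw [charFun_vec, charFun_vec]
  exact hi _ (Submodule.sum_mem _ fun i _ => Submodule.smul_mem _ _ (ha i)) _
    (Submodule.sum_mem _ fun i _ => Submodule.smul_mem _ _ (hb i)) (norm_comb hab _)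

/-- two elements with the same norm and the same product with `c` -/
theorem pair_law (hi : Iso μ) {c k k' : Lp ℝ 2 μ} (hc : c ∈ values μ) (hk : k ∈ values μ)
    (hk' : k' ∈ values μ) (h1 : ⟪c, k⟫_ℝ = ⟪c, k'⟫_ℝ) (h2 : ‖k‖ = ‖k'‖) {Φ : ℝ → ℝ → ℂ}
    (hΦ : Measurable (Function.uncurry Φ)) :
    ∫ f, Φ (c f) (k f) ∂μ = ∫ f, Φ (c f) (k' f) ∂μ := by
  have hlaw : μ.map (vec ![c, k]) = μ.map (vec ![c, k']) := by
    refine vec_law hi ?_ ?_ ?_
    · intro i; fin_cases i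
      · exact hc
      · exact hk
    · intro i; fin_cases i
      · exact hc
      · exact hk'
    · intro i j
      fin_cases i <;> fin_cases j
      · rfl
      · exact h1
      · show ⟪k, c⟫_ℝ = ⟪k', c⟫_ℝ
        rw [real_inner_comm, h1, real_inner_comm]
      · show ⟪k, k⟫_ℝ = ⟪k', k'⟫_ℝ
        rw [real_inner_self_eq_norm_sq, real_inner_self_eq_norm_sq, h2]
  have hG : Measurable fun v : EuclideanSpace ℝ (Fin 2) => Φ (v 0) (v 1) := by
    have m0 : Measurable fun v : EuclideanSpace ℝ (Fin 2) => v 0 :=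
      (measurable_pi_apply 0).comp (MeasurableEquiv.toLp 2 (Fin 2 → ℝ)).symm.measurable
    have m1 : Measurable fun v : EuclideanSpace ℝ (Fin 2) => v 1 :=
      (measurable_pi_apply 1).comp (MeasurableEquiv.toLp 2 (Fin 2 → ℝ)).symm.measurable
    exact hΦ.comp (m0.prodMk m1)
  have h3 : ∀ w : Lp ℝ 2 μ, ∫ f, Φ (c f) (w f) ∂μ = ∫ v, Φ (v 0) (v 1) ∂(μ.map (vec ![c, w])) := by
    intro w
    rw [integral_map (meas_vec _).aemeasurable hG.aestronglyMeasurable]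
    rfl
  rw [h3, h3, hlaw]

/-- `E[u w exp (i c)]` -/
def q (c u w : Lp ℝ 2 μ) : ℂ := ∫ f, ((u f * w f : ℝ) : ℂ) * Complex.exp (I * ((c f : ℝ) : ℂ)) ∂μ

theorem int_q (c u w : Lp ℝ 2 μ) :
    Integrable (fun f => ((u f * w f : ℝ) : ℂ) * Complex.exp (I * ((c f : ℝ) : ℂ))) μ := by
  refine (int_mul u w).norm.mono' ?_ (Eventually.of_forall fun f => ?_)
  · have hu := (Lp.stronglyMeasurable u).measurable
    have hw := (Lp.stronglyMeasurable w).measurable
    exact (Complex.measurable_ofReal.comp (hu.mul hw)).aestronglyMeasurable.mul (meas_exp c)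
  · rw [norm_mul, norm_exp_one, mul_one, Complex.norm_real]

theorem meas_phi : Measurable (Function.uncurry fun x y : ℝ =>
    ((y * y : ℝ) : ℂ) * Complex.exp (I * (x : ℂ))) := by
  unfold Function.uncurry
  fun_prop

theorem meas_psi : Measurable (Function.uncurry fun x y : ℝ =>
    ((x * y : ℝ) : ℂ) * Complex.exp (I * (x : ℂ))) := by
  unfold Function.uncurry
  fun_prop

theorem q_smul (c u : Lp ℝ 2 μ) (s : ℝ) : q c (s • u) (s • u) = (s ^ 2 : ℝ) * q c u u := by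
  unfold q
  rw [← integral_const_mul]
  refine integral_congr_ae ?_
  filter_upwards [Lp.coeFn_smul s u] with f hf
  rw [hf, Pi.smul_apply, smul_eq_mul]
  push_cast
  ring

theorem q_perp (hi : Iso μ) {c k y : Lp ℝ 2 μ} (hc : c ∈ values μ) (hk : k ∈ values μ)
    (hy : y ∈ values μ) (hk0 : k ≠ 0) (hck : ⟪c, k⟫_ℝ = 0) (hcy : ⟪c, y⟫_ℝ = 0) :
    q c y y * (‖k‖ ^ 2 : ℝ) = q c k k * (‖y‖ ^ 2 : ℝ) := by
  by_cases hy0 : y = 0
  · have h1 : q c (0 : Lp ℝ 2 μ) 0 = 0 := by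
      have := q_smul c (0 : Lp ℝ 2 μ) 0
      rw [smul_zero] at this
      rw [this]
      simp
    rw [hy0, h1, norm_zero]
    simp
  have hyn : ‖y‖ ≠ 0 := norm_ne_zero_iff.mpr hy0
  have hkn : ‖k‖ ≠ 0 := norm_ne_zero_iff.mpr hk0
  have h1 := pair_law hi hc hk (Submodule.smul_mem _ (‖k‖ / ‖y‖) hy)
    (by rw [hck, real_inner_smul_right, hcy, mul_zero])
    (by rw [norm_smul, Real.norm_eq_abs, abs_of_nonneg (by positivity), div_mul_cancel₀ _ hyn])
    meas_phi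
  have h2 : q c k k = q c ((‖k‖ / ‖y‖) • y) ((‖k‖ / ‖y‖) • y) := h1
  rw [h2, q_smul]
  have h3 : (‖y‖ : ℂ) ≠ 0 := by exact_mod_cast hyn
  push_cast
  field_simp

theorem q_cross (hi : Iso μ) {c y : Lp ℝ 2 μ} (hc : c ∈ values μ) (hy : y ∈ values μ)
    (hcy : ⟪c, y⟫_ℝ = 0) : q c c y = 0 := by
  have h1 := pair_law hi hc hy (Submodule.neg_mem _ hy)
    (by rw [hcy, inner_neg_right, hcy, neg_zero]) (norm_neg y).symm meas_psi
  have h2 : q c c y = q c c (-y) := h1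
  have h3 : q c c (-y) = - q c c y := by
    unfold q
    rw [← integral_neg]
    refine integral_congr_ae ?_
    filter_upwards [Lp.coeFn_neg y] with f hf
    rw [hf, Pi.neg_apply]
    push_cast
    ring
  rw [h3] at h2
  linear_combination h2 / 2

theorem q_split (c y : Lp ℝ 2 μ) (a : ℝ) : q c (a • c + y) (a • c + y) =
    (a ^ 2 : ℝ) * q c c c + 2 * a * q c c y + q c y y := by
  have j1 : Integrable (fun f => ((a ^ 2 : ℝ) : ℂ) * (((c f * c f : ℝ) : ℂ) *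
      Complex.exp (I * ((c f : ℝ) : ℂ)))) μ := (int_q c c c).const_mul _
  have j2 : Integrable (fun f => 2 * (a : ℂ) * (((c f * y f : ℝ) : ℂ) *
      Complex.exp (I * ((c f : ℝ) : ℂ)))) μ := (int_q c c y).const_mul _
  have j3 : Integrable (fun f => ((a ^ 2 : ℝ) : ℂ) * (((c f * c f : ℝ) : ℂ) *
      Complex.exp (I * ((c f : ℝ) : ℂ))) + 2 * (a : ℂ) * (((c f * y f : ℝ) : ℂ) *
      Complex.exp (I * ((c f : ℝ) : ℂ)))) μ := j1.add j2
  unfold q
  rw [← integral_const_mul, ← integral_const_mul, ← integral_add j1 j2,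
    ← integral_add j3 (int_q c y y)]
  refine integral_congr_ae ?_
  filter_upwards [Lp.coeFn_add (a • c) y, Lp.coeFn_smul a c] with f h1 h2
  rw [h1, Pi.add_apply, h2, Pi.smul_apply, smul_eq_mul]
  push_cast
  ring

/-- the second moment of a value against `exp (i c)` -/
theorem q_value (hs : IsStationary μ) (h2 : Integrable (fun f : MW => f 0 ^ 2) μ) (hi : Iso μ)
    {c k : Lp ℝ 2 μ} (hc : c ∈ values μ) (hc0 : c ≠ 0) (hk : k ∈ values μ) (hk0 : k ≠ 0)
    (hck : ⟪c, k⟫_ℝ = 0) : ∃ κ : ℂ, ∀ x : ℂ, q c (V hs h2 x) (V hs h2 x) =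
      q c k k / (‖k‖ ^ 2 : ℝ) * (‖V hs h2 0‖ ^ 2 : ℝ) + κ * (⟪c, V hs h2 x⟫_ℝ ^ 2 : ℝ) := by
  have hcn : ‖c‖ ≠ 0 := norm_ne_zero_iff.mpr hc0
  have hkn : (‖k‖ : ℂ) ≠ 0 := by exact_mod_cast norm_ne_zero_iff.mpr hk0
  have hcn' : (‖c‖ : ℂ) ≠ 0 := by exact_mod_cast hcn
  set A : ℂ := q c k k / (‖k‖ ^ 2 : ℝ) with hA
  refine ⟨(q c c c - A * (‖c‖ ^ 2 : ℝ)) / (‖c‖ ^ 4 : ℝ), fun x => ?_⟩
  set a : ℝ := ⟪c, V hs h2 x⟫_ℝ / ‖c‖ ^ 2 with ha
  set y : Lp ℝ 2 μ := V hs h2 x - a • c with hy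
  have hym : y ∈ values μ := Submodule.sub_mem _ (V_mem hs h2 x) (Submodule.smul_mem _ _ hc)
  have hcy : ⟪c, y⟫_ℝ = 0 := by
    rw [hy, inner_sub_right, real_inner_smul_right, real_inner_self_eq_norm_sq, ha]
    field_simp
    ring
  have hV : V hs h2 x = a • c + y := by rw [hy]; abel
  have hyn : ‖y‖ ^ 2 = ‖V hs h2 0‖ ^ 2 - a ^ 2 * ‖c‖ ^ 2 := by
    have h3 : ‖V hs h2 x‖ ^ 2 = a ^ 2 * ‖c‖ ^ 2 + ‖y‖ ^ 2 := by
      rw [hV, norm_add_sq_real, real_inner_smul_left, hcy, norm_smul, mul_pow, Real.norm_eq_abs,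
        sq_abs]
      ring
    rw [V_norm] at h3
    linarith
  have h4 : q c y y = A * (‖y‖ ^ 2 : ℝ) := by
    have h5 := q_perp hi hc hk hym hk0 hck hcy
    rw [hA]
    push_cast at h5 ⊢
    field_simp
    linear_combination h5
  rw [hV, q_split, q_cross hi hc hym hcy, h4, hyn, ← hV]
  have h6 : ⟪c, V hs h2 x⟫_ℝ = a * ‖c‖ ^ 2 := by
    rw [ha]
    field_simp
  rw [h6]
  push_cast
  field_simp
  ring

/-- X5 -/
theorem var_erg (hs : IsStationary μ) (h2 : Integrable (fun f : MW => f 0 ^ 2) μ) (hi : Iso μ)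
    (hV : V hs h2 0 ≠ 0)
    (hint : ∀ t : ℝ, Integrable (fun p : MW × ℂ => gw p.2 * p.1 ((t : ℂ) * p.2) ^ 2)
      (μ.prod volume))
    (ha : Tendsto (fun t : ℝ => ∫ f : MW,
      |(∫ z, gw z * f ((t : ℂ) * z) ^ 2) - ∫ g : MW, g 0 ^ 2 ∂μ| ∂μ) atTop (𝓝 0))
    (hb : ∀ c ∈ values μ,
      Tendsto (fun t : ℝ => ∫ z : ℂ, gw z * ⟪c, V hs h2 ((t : ℂ) * z)⟫_ℝ ^ 2) atTop (𝓝 0)) :
    ∀ c ∈ values μ, ∃ k ∈ values μ, k ≠ 0 ∧ ⟪c, k⟫_ℝ = 0 ∧
      ∫ f, ((k f ^ 2 : ℝ) : ℂ) * Complex.exp (I * ((c f : ℝ) : ℂ)) ∂μ = (‖k‖ ^ 2 : ℝ) * ch c := by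
  intro c hc
  have hVx : ∀ x, V hs h2 x ≠ 0 := fun x => by
    rw [← norm_ne_zero_iff, V_norm, norm_ne_zero_iff]
    exact hV
  obtain ⟨x₀, hx₀⟩ := Pool.Agent.Helper12.Lr.zero_exists hs h2 c
  set k := V hs h2 x₀ with hkdef
  have hkm : k ∈ values μ := V_mem hs h2 x₀
  have hk0 : k ≠ 0 := hVx x₀
  refine ⟨k, hkm, hk0, hx₀, ?_⟩
  have hq : ∫ f, ((k f ^ 2 : ℝ) : ℂ) * Complex.exp (I * ((c f : ℝ) : ℂ)) ∂μ = q c k k := by
    unfold q
    refine integral_congr_ae (Eventually.of_forall fun f => ?_)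
    show ((k f ^ 2 : ℝ) : ℂ) * _ = ((k f * k f : ℝ) : ℂ) * _
    rw [sq]
  rw [hq]
  by_cases hc0 : c = 0
  · -- `c = 0`
    have h1 : ch c = 1 := by rw [hc0]; exact Pool.Agent.Helper41.Ip.ch_zero
    rw [h1, mul_one]
    have h3 : q c k k = ((∫ f, k f * k f ∂μ : ℝ) : ℂ) := by
      unfold q
      rw [← integral_complex_ofReal]
      refine integral_congr_ae ?_
      have h4 : (c : MW → ℝ) =ᵐ[μ] 0 := by
        rw [hc0]; exact Lp.coeFn_zero ℝ 2 μ
      filter_upwards [h4] with f hf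
      rw [hf]
      simp
    rw [h3, inner_int, real_inner_self_eq_norm_sq]
  obtain ⟨κ, hκ⟩ := q_value hs h2 hi hc hc0 hkm hk0 hx₀
  set M : ℝ := ‖V hs h2 0‖ ^ 2 with hM
  have hM0 : (M : ℂ) ≠ 0 := by
    have : ‖V hs h2 0‖ ≠ 0 := norm_ne_zero_iff.mpr hV
    exact_mod_cast pow_ne_zero 2 this
  have hkM : ‖k‖ ^ 2 = M := by rw [hkdef, V_norm]
  have hMeq : ∫ g : MW, g 0 ^ 2 ∂μ = M := by
    rw [hM, ← real_inner_self_eq_norm_sq, ← inner_int]
    refine integral_congr_ae ?_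
    filter_upwards [V_coe hs h2 0] with f hf
    rw [hf, sq]
  rw [hkM] at hκ
  -- the left side
  set Lf : ℝ → ℂ := fun t => ∫ f : MW, (((∫ z, gw z * f ((t : ℂ) * z) ^ 2 : ℝ)) : ℂ) *
    Complex.exp (I * ((c f : ℝ) : ℂ)) ∂μ with hLf
  have hmeasc : Measurable (fun f : MW => Complex.exp (I * ((c f : ℝ) : ℂ))) := by
    have h := (Lp.stronglyMeasurable c).measurable
    exact Complex.measurable_exp.comp ((Complex.measurable_ofReal.comp h).const_mul I)
  have hswap : ∀ t : ℝ, Lf t = ∫ z : ℂ, (gw z : ℂ) * q c (V hs h2 ((t : ℂ) * z))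
      (V hs h2 ((t : ℂ) * z)) := by
    intro t
    have hj : Integrable (Function.uncurry fun (f : MW) (z : ℂ) =>
        ((gw z * f ((t : ℂ) * z) ^ 2 : ℝ) : ℂ) * Complex.exp (I * ((c f : ℝ) : ℂ)))
        (μ.prod volume) := by
      refine (hint t).norm.mono' ?_ (Eventually.of_forall fun p => ?_)
      · exact (Complex.measurable_ofReal.comp_aemeasurable
          (hint t).aemeasurable).aestronglyMeasurable.mul
          (hmeasc.comp measurable_fst).aestronglyMeasurable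
      · show ‖((gw p.2 * p.1 ((t : ℂ) * p.2) ^ 2 : ℝ) : ℂ) * _‖ ≤ _
        rw [norm_mul, norm_exp_one, mul_one, Complex.norm_real]
    have h1 := integral_integral_swap hj
    rw [hLf]
    show ∫ f : MW, (((∫ z, gw z * f ((t : ℂ) * z) ^ 2 : ℝ)) : ℂ) *
      Complex.exp (I * ((c f : ℝ) : ℂ)) ∂μ = _
    have h3 : ∀ f : MW, (((∫ z, gw z * f ((t : ℂ) * z) ^ 2 : ℝ)) : ℂ) *
      Complex.exp (I * ((c f : ℝ) : ℂ)) = ∫ z, ((gw z * f ((t : ℂ) * z) ^ 2 : ℝ) : ℂ) *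
        Complex.exp (I * ((c f : ℝ) : ℂ)) := by
      intro f
      rw [integral_mul_const, integral_complex_ofReal]
    simp_rw [h3]
    refine h1.trans ?_
    refine integral_congr_ae (Eventually.of_forall fun z => ?_)
    show ∫ f : MW, ((gw z * f ((t : ℂ) * z) ^ 2 : ℝ) : ℂ) *
      Complex.exp (I * ((c f : ℝ) : ℂ)) ∂μ = (gw z : ℂ) * q c _ _
    unfold q
    rw [← integral_const_mul]
    refine integral_congr_ae ?_
    filter_upwards [V_coe hs h2 ((t : ℂ) * z)] with f hf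
    rw [hf]
    push_cast
    ring
  obtain ⟨hg1, hg2⟩ := Pool.Agent.Helper43.Er.gw_int
  have hright : ∀ t : ℝ, Lf t = q c k k / (M : ℂ) * M +
      κ * ((∫ z : ℂ, gw z * ⟪c, V hs h2 ((t : ℂ) * z)⟫_ℝ ^ 2 : ℝ) : ℂ) := by
    intro t
    rw [hswap t]
    have hi2 : Integrable (fun z : ℂ => gw z * ⟪c, V hs h2 ((t : ℂ) * z)⟫_ℝ ^ 2) := by
      have hcont : Continuous fun z : ℂ => ⟪c, V hs h2 ((t : ℂ) * z)⟫_ℝ ^ 2 := by
        have h3 := (Pool.Agent.Helper72.Ip.cont_Vg hs h2 c).comp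
          (continuous_const.mul continuous_id : Continuous fun z : ℂ => (t : ℂ) * z)
        have h4 : (fun z : ℂ => ⟪c, V hs h2 ((t : ℂ) * z)⟫_ℝ ^ 2) =
            fun z : ℂ => ⟪V hs h2 ((t : ℂ) * z), c⟫_ℝ ^ 2 := by
          funext z
          rw [real_inner_comm]
        rw [h4]
        exact h3.pow 2
      refine (hg1.norm.mul_const ((‖c‖ * ‖V hs h2 0‖) ^ 2)).mono'
        (hg1.aestronglyMeasurable.mul hcont.aestronglyMeasurable)
        (Eventually.of_forall fun z => ?_)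
      rw [norm_mul, Real.norm_eq_abs (_ ^ 2), abs_of_nonneg (sq_nonneg _)]
      refine mul_le_mul_of_nonneg_left ?_ (norm_nonneg _)
      rw [← sq_abs]
      refine pow_le_pow_left₀ (abs_nonneg _) ?_ 2
      rw [← V_norm hs h2 ((t : ℂ) * z)]
      exact abs_real_inner_le_norm _ _
    have h5 : ∀ z : ℂ, (gw z : ℂ) * q c (V hs h2 ((t : ℂ) * z)) (V hs h2 ((t : ℂ) * z)) =
        q c k k / (M : ℂ) * M * (gw z : ℂ) +
          κ * ((gw z * ⟪c, V hs h2 ((t : ℂ) * z)⟫_ℝ ^ 2 : ℝ) : ℂ) := by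
      intro z
      rw [hκ]
      push_cast
      ring
    simp_rw [h5]
    have e1 : Integrable (fun z : ℂ => q c k k / (M : ℂ) * M * (gw z : ℂ)) :=
      hg1.ofReal.const_mul _
    have e2 : Integrable (fun z : ℂ =>
        κ * ((gw z * ⟪c, V hs h2 ((t : ℂ) * z)⟫_ℝ ^ 2 : ℝ) : ℂ)) := hi2.ofReal.const_mul _
    rw [integral_add e1 e2, integral_const_mul, integral_const_mul, integral_complex_ofReal,
      integral_complex_ofReal, hg2]
    push_cast
    ring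
  have hlim1 : Tendsto Lf atTop (𝓝 (q c k k / (M : ℂ) * M)) := by
    have h3 := ((Complex.continuous_ofReal.tendsto 0).comp (hb c hc)).const_mul κ
    have h4 := h3.const_add (q c k k / (M : ℂ) * M)
    simp only [Complex.ofReal_zero, mul_zero, add_zero] at h4
    exact h4.congr fun t => (hright t).symm
  have hlim2 : Tendsto Lf atTop (𝓝 ((M : ℂ) * ch c)) := by
    rw [tendsto_iff_norm_sub_tendsto_zero]
    refine squeeze_zero (fun t => norm_nonneg _) (fun t => ?_) ha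
    have hiA : Integrable (fun f : MW => ∫ z, gw z * f ((t : ℂ) * z) ^ 2) μ :=
      (hint t).integral_prod_left
    have h3 : (M : ℂ) * ch c = ∫ f : MW, (M : ℂ) * Complex.exp (I * ((c f : ℝ) : ℂ)) ∂μ := by
      unfold ch
      rw [integral_const_mul]
    have i1 : Integrable (fun f : MW => (((∫ z, gw z * f ((t : ℂ) * z) ^ 2 : ℝ)) : ℂ) *
        Complex.exp (I * ((c f : ℝ) : ℂ))) μ := by
      refine hiA.norm.mono' ?_ (Eventually.of_forall fun f => ?_)
      · exact (Complex.measurable_ofReal.comp_aemeasurable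
          hiA.aemeasurable).aestronglyMeasurable.mul hmeasc.aestronglyMeasurable
      · rw [norm_mul, norm_exp_one, mul_one, Complex.norm_real]
    have i2 : Integrable (fun f : MW => (M : ℂ) * Complex.exp (I * ((c f : ℝ) : ℂ))) μ :=
      (Pool.Agent.Helper41.Ip.int_exp c).const_mul _
    rw [hLf, h3]
    show ‖(∫ f : MW, (((∫ z, gw z * f ((t : ℂ) * z) ^ 2 : ℝ)) : ℂ) *
      Complex.exp (I * ((c f : ℝ) : ℂ)) ∂μ) - _‖ ≤ _
    rw [← integral_sub i1 i2, hMeq]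
    refine (norm_integral_le_integral_norm _).trans (le_of_eq ?_)
    refine integral_congr_ae (Eventually.of_forall fun f => ?_)
    show ‖(((∫ z, gw z * f ((t : ℂ) * z) ^ 2 : ℝ)) : ℂ) * Complex.exp (I * ((c f : ℝ) : ℂ)) -
      (M : ℂ) * Complex.exp (I * ((c f : ℝ) : ℂ))‖ = |(∫ z, gw z * f ((t : ℂ) * z) ^ 2) - M|
    rw [← sub_mul, norm_mul, norm_exp_one, mul_one, ← Complex.ofReal_sub, Complex.norm_real,
      Real.norm_eq_abs]
  have h6 := tendsto_nhds_unique hlim1 hlim2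
  rw [div_mul_cancel₀ _ hM0] at h6
  rw [h6, hkM]

end

end Pool.Agent.Helper33.Er
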