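import Pool.Agent.Helper26.Er.Defs
import Pool.Agent.Helper26.Ip.Core
import Pool.Agent.Helper41.Ip.CH
import Pool.Agent.Helper33.Ip.Gauss

/-!
# Linear regression: package E7
-/

set_option autoImplicit false
set_option linter.unusedSectionVars false
open MeasureTheory Filter Topology ProbabilityTheory
open scoped ContDiff ENNReal InnerProductSpace

namespace Pool.Agent.Helper33.Er

open Pool.Agent.N661.BR (MW J0 IsStationary shift meas_eval meas_shift IsGaussianLaw lin meas_lin)
open Pool.Agent.Helper37.BC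
open Pool.Agent.Helper26.Ip
open Pool.Agent.Helper26.Lr
open Pool.Agent.Helper26.Er
open Pool.Agent.Helper41.Ip (meas_kexp int_kexp norm_exp_diff coe_line int_mul ch_deriv
  norm_exp_one)
open Pool.Agent.Helper33.Ip (comb_coe)
open Complex (I)

noncomputable section

section general

variable {Ω : Type*} [MeasurableSpace Ω] {μ : Measure Ω} [IsFiniteMeasure μ]

theorem char_part {g X : Ω → ℝ} (hg : Integrable g μ) (hX : Measurable X) (b : ℝ) :
    charFun ((μ.withDensity fun q => ENNReal.ofReal (g q)).map X) b =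
      ∫ q, ((max (g q) 0 : ℝ) : ℂ) * Complex.exp (I * ((b * X q : ℝ) : ℂ)) ∂μ := by
  rw [charFun_apply_real, integral_map hX.aemeasurable (by fun_prop),
    integral_withDensity_eq_integral_toReal_smul₀ hg.aemeasurable.ennreal_ofReal
      (Eventually.of_forall fun _ => ENNReal.ofReal_lt_top)]
  refine integral_congr_ae (Eventually.of_forall fun q => ?_)
  show (ENNReal.ofReal (g q)).toReal • Complex.exp (b * X q * I) = _
  rw [ENNReal.toReal_ofReal']
  rw [Complex.real_smul]
  congr 2
  push_cast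
  ring

theorem int_part {h X : Ω → ℝ} (hh : Integrable h μ) (hX : Measurable X) (b : ℝ) :
    Integrable (fun q => ((h q : ℝ) : ℂ) * Complex.exp (I * ((b * X q : ℝ) : ℂ))) μ := by
  have hm : Measurable fun q => Complex.exp (I * ((b * X q : ℝ) : ℂ)) :=
    Complex.measurable_exp.comp ((Complex.measurable_ofReal.comp (hX.const_mul b)).const_mul I)
  refine hh.norm.mono' ?_ (Eventually.of_forall fun q => ?_)
  · exact (Complex.measurable_ofReal.comp_aemeasurable hh.aemeasurable).aestronglyMeasurable.mul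
      hm.aestronglyMeasurable
  · rw [norm_mul, norm_exp_one, mul_one, Complex.norm_real]

/-- a function whose Fourier transform against `X` vanishes has conditional mean `0` -/
theorem condExp_zero {g X : Ω → ℝ} (hg : Integrable g μ) (hX : Measurable X)
    (h : ∀ b : ℝ, ∫ q, (g q : ℂ) * Complex.exp (I * ((b * X q : ℝ) : ℂ)) ∂μ = 0) :
    μ[g | MeasurableSpace.comap X inferInstance] =ᵐ[μ] fun _ => 0 := by
  have hgn : Integrable (fun q => - g q) μ := hg.neg
  have h1 : IsFiniteMeasure (μ.withDensity fun q => ENNReal.ofReal (g q)) :=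
    isFiniteMeasure_withDensity_ofReal hg.2
  have h2 : IsFiniteMeasure (μ.withDensity fun q => ENNReal.ofReal (- g q)) :=
    isFiniteMeasure_withDensity_ofReal hgn.2
  have heq : (μ.withDensity fun q => ENNReal.ofReal (g q)).map X =
      (μ.withDensity fun q => ENNReal.ofReal (- g q)).map X := by
    refine Measure.ext_of_charFun ?_
    funext b
    rw [char_part hg hX, char_part hgn hX, ← sub_eq_zero,
      ← integral_sub (int_part hg.pos_part hX b) (int_part hgn.pos_part hX b)]
    refine Eq.trans ?_ (h b)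
    refine integral_congr_ae (Eventually.of_forall fun q => ?_)
    show ((max (g q) 0 : ℝ) : ℂ) * _ - ((max (- g q) 0 : ℝ) : ℂ) * _ = (g q : ℂ) * _
    rw [← sub_mul, ← Complex.ofReal_sub]
    congr 2
    rcases le_total 0 (g q) with h0 | h0
    · rw [max_eq_left h0, max_eq_right (by linarith), sub_zero]
    · rw [max_eq_right h0, max_eq_left (by linarith)]
      ring
  have hm : MeasurableSpace.comap X inferInstance ≤ ‹MeasurableSpace Ω› := hX.comap_le
  refine (ae_eq_condExp_of_forall_setIntegral_eq hm hg (fun s _ _ => integrableOn_zero) ?_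
    aestronglyMeasurable_const).symm
  rintro s ⟨B, hB, rfl⟩ _
  have hs : MeasurableSet (X ⁻¹' B) := hX hB
  rw [integral_zero, integral_eq_lintegral_pos_part_sub_lintegral_neg_part hg.integrableOn]
  have h3 := congrArg (fun ν : Measure ℝ => ν B) heq
  simp only [Measure.map_apply hX hB, withDensity_apply _ hs] at h3
  rw [h3, sub_self]

end general

variable {μ : Measure MW} [IsProbabilityMeasure μ]

theorem D_of_iso {v c : Lp ℝ 2 μ} (h : Iso μ) (hv : v ∈ values μ) (hc : c ∈ values μ)
    (ho : ⟪c, v⟫_ℝ = 0) : D c v = 0 := by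
  have h1 : ∀ s : ℝ, ch (c + (-s) • v) = ch (c + s • v) := by
    intro s
    refine h _ (Submodule.add_mem _ hc (Submodule.smul_mem _ _ hv)) _
      (Submodule.add_mem _ hc (Submodule.smul_mem _ _ hv)) ?_
    have h2 : ∀ r : ℝ, ‖c + r • v‖ ^ 2 = ‖c‖ ^ 2 + r ^ 2 * ‖v‖ ^ 2 := by
      intro r
      rw [norm_add_sq_real, inner_smul_right, ho, norm_smul, mul_pow, Real.norm_eq_abs, sq_abs]
      ring
    have h3 : ‖c + (-s) • v‖ ^ 2 = ‖c + s • v‖ ^ 2 := by
      rw [h2, h2]; ring
    exact (pow_left_inj₀ (norm_nonneg _) (norm_nonneg _) two_ne_zero).mp h3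
  have h4 := ch_deriv c v 0
  have h5 : HasDerivAt (fun s : ℝ => ch (c + (-s) • v))
      (-(I * ∫ f, (v f : ℂ) * Complex.exp (I * (((c + (0:ℝ) • v : Lp ℝ 2 μ) f : ℝ) : ℂ)) ∂μ)) 0 := by
    have h6 : HasDerivAt (fun s : ℝ => -s) (-1) 0 := (hasDerivAt_id' (0:ℝ)).neg
    have h7 := ch_deriv c v (-0)
    have h8 := HasDerivAt.scomp (0:ℝ) h7 h6
    rw [neg_zero] at h8
    refine h8.congr_deriv ?_
    rw [neg_smul, one_smul]
  simp_rw [h1] at h5
  have h9 := h4.unique h5
  rw [zero_smul, add_zero] at h9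
  have h10 : I * D c v = 0 := by
    unfold D
    have : I * (∫ f, (v f : ℂ) * Complex.exp (I * ((c f : ℝ) : ℂ)) ∂μ) +
      I * (∫ f, (v f : ℂ) * Complex.exp (I * ((c f : ℝ) : ℂ)) ∂μ) = 0 := by
      nth_rewrite 1 [h9]
      ring
    linear_combination this / 2
  exact (mul_eq_zero.mp h10).resolve_left Complex.I_ne_zero

/-- E7 -/
theorem condExp_of_iso (hs : IsStationary μ) (h2 : Integrable (fun f : MW => f 0 ^ 2) μ)
    (h : Iso μ) (k : ℕ) (w : Fin k → ℂ) (t : Fin k → ℝ) (h0 : ∫ f : MW, f 0 * lin w t f ∂μ = 0) :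
    μ[fun f : MW => f 0 | sig (lin w t)] =ᵐ[μ] (fun _ => 0) := by
  have hc := comb_coe hs h2 w t
  set c₀ : Lp ℝ 2 μ := ∑ j, t j • V hs h2 (w j) with hc0
  have hmem : c₀ ∈ values μ :=
    Submodule.sum_mem _ fun j _ => Submodule.smul_mem _ _ (V_mem hs h2 _)
  have ho : ⟪c₀, V hs h2 0⟫_ℝ = 0 := by
    rw [← inner_int]
    refine Eq.trans (integral_congr_ae ?_) h0
    filter_upwards [hc, V_coe hs h2 0] with f h3 h4
    rw [h3, h4, mul_comm]
  have hint : Integrable (fun f : MW => f 0) μ :=
    (Pool.Agent.Helper41.Ip.int_one (V hs h2 0)).congr (V_coe hs h2 0)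
  refine condExp_zero hint (meas_lin w t) fun b => ?_
  have h5 := D_of_iso h (V_mem hs h2 0) (Submodule.smul_mem _ b hmem)
    (by rw [real_inner_smul_left, ho, mul_zero])
  refine Eq.trans ?_ h5
  unfold D
  refine integral_congr_ae ?_
  filter_upwards [hc, V_coe hs h2 0, Lp.coeFn_smul b c₀] with f h3 h4 h6
  rw [h4, h6, Pi.smul_apply, smul_eq_mul, h3]

end

end Pool.Agent.Helper33.Er
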